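import Pool.Agent.X321.UA.Tor
set_option autoImplicit false

/-!
The exact leading term of the regulator determinant of an arrangement.
-/

namespace Pool.Agent.X321.UA

open Pool.Agent.TH577.UA

open Pool.Agent.TH826.MK

open Pool.Agent.TH826.GA (cm lf al be ku coe_ku chg chg_lf al_T be_T vtx eval_vtx)

open Pool.Agent.X321.BL (abs_det_near)

section tri

theorem det_of_tri {I : Type*} [Fintype I] [DecidableEq I] (h : I → ℕ)
    (M : Matrix I I ℝ) (h2 : ∀ i j, M i j ≠ 0 → i = j ∨ h j < h i) :
    M.det = ∏ i, M i i := by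
  classical
  have htri : M.BlockTriangular fun i => OrderDual.toDual (h i) := by
    intro i j hij
    by_contra hne
    rcases h2 i j hne with rfl | h3
    · exact lt_irrefl _ hij
    · exact lt_asymm h3 hij
  rw [htri.det, ← Finset.prod_fiberwise_of_maps_to (s := Finset.univ)
    (t := Finset.univ.image fun i => OrderDual.toDual (h i)) (g := fun i => OrderDual.toDual (h i))
    fun i hi => Finset.mem_image_of_mem _ hi]
  refine Finset.prod_congr rfl fun k _ => ?_
  have hd : M.toSquareBlock (fun i => OrderDual.toDual (h i)) k =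
      Matrix.diagonal fun i => M i.1 i.1 := by
    ext i j
    rw [Matrix.toSquareBlock_def, Matrix.of_apply, Matrix.diagonal_apply]
    by_cases hij : i = j
    · rw [if_pos hij, hij]
    · rw [if_neg hij]
      by_contra hne
      rcases h2 _ _ hne with h3 | h3
      · exact hij (Subtype.ext h3)
      · have h4 : h i.1 = h j.1 := OrderDual.toDual.injective (i.2.trans j.2.symm)
        omega
  rw [hd, Matrix.det_diagonal]
  exact (Finset.prod_subtype (p := fun i => OrderDual.toDual (h i) = k) _
    (fun i => by simp) fun i => M i i).symm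

end tri

section comb

variable {K : Type*} [Field K] {d m : ℕ} {c : Fin (m + 1) → Fin (d + 1) → K}
  {a : Fin (m + 1) → K}

theorem lead_same_one {T : Fin (d + 1) → Fin (m + 1)} (hT : Nbc c a T) :
    lead c a T T (hi c T) = 1 := by
  classical
  rw [lead_expand, Finset.sum_eq_single Finset.univ]
  · have h1 : (emat c a T fun l => if l ∈ Finset.univ then T l else hi c T l).det = 1 := by
      rw [Matrix.det_of_isUpperTriangular]
      · refine Finset.prod_eq_one fun i _ => ?_
        unfold emat mu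
        simp only [Finset.mem_univ, if_true, Matrix.of_apply]
        rw [if_pos (be_T T hT.2.1 i), top_T hT.2.1]
        unfold stp
        rw [if_pos le_rfl]
        simp
      · intro i j hij
        have hij' : j < i := hij
        unfold emat mu
        simp only [Finset.mem_univ, if_true, Matrix.of_apply]
        rw [if_pos (be_T T hT.2.1 i), top_T hT.2.1]
        unfold stp
        rw [if_neg (not_le.2 hij')]
        simp
    rw [h1, mul_one]
    simp
  · intro s _ hs
    by_contra hne
    have hs' := right_ne_zero_of_mul hne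
    set e : Fin (d + 1) → Fin (m + 1) := fun l => if l ∈ s then T l else hi c T l with he
    have h1 := hT.sum_le hs'
    obtain ⟨l0, hl0⟩ : ∃ l, l ∉ s := by
      by_contra hcon
      push Not at hcon
      exact hs (Finset.eq_univ_iff_forall.2 hcon)
    have hle : ∀ l, (T l : ℕ) ≤ e l := by
      intro l
      simp only [he]
      split_ifs
      · exact le_rfl
      · exact (hT.lt_hi l).le
    have h2 : ∑ l, (T l : ℕ) < ∑ l, (e l : ℕ) := by
      refine Finset.sum_lt_sum (fun l _ => hle l) ⟨l0, Finset.mem_univ l0, ?_⟩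
      simp only [he, if_neg hl0]
      exact hT.lt_hi l0
    omega
  · intro h
    exact absurd (Finset.mem_univ _) h

end comb

section main

variable {K : Type*} [Field K] {d m : ℕ} {c : Fin (m + 1) → Fin (d + 1) → K}
  {a : Fin (m + 1) → K} {g : MvPolynomial (Fin (d + 1)) K} {w : Fin (m + 1) → ℕ}

theorem exists_tori_limit (σ : K →+* ℂ) (hD : Distinct c a)
    (hg : ∀ T : Fin (d + 1) → Fin (m + 1), (cm c T).det ≠ 0 →
      MvPolynomial.eval (vtx c a T) g ≠ 0) {ε : ℝ} (hε : 0 < ε) :
    ∃ C : ℝ, 1 ≤ C ∧ ∀ lam : K, C ≤ ‖σ lam‖ →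
      ∃ Γ : Ix c a → Torus (ARing lam g w c a) d,
        (∀ T θ x, (Γ T).e θ (acst lam g w c a x) = σ x) ∧
        |((Matrix.of fun T T' : Ix c a =>
          (Γ T).reg (symb (aent lam g w c a T'.1))).det /
          ∏ T : Ix c a, (-Real.log ‖σ lam‖ * ((2 * Real.pi) ^ d *
            (((w (T.1 0) : ℝ) + 1)⁻¹ * ((w (T.1 0) : ℝ) + 1) ^ d)))) - 1| ≤ ε := by
  classical
  have hpi := Real.pi_pos
  set D : Ix c a → ℝ := fun T => (2 * Real.pi) ^ d *
    (((w (T.1 0) : ℝ) + 1)⁻¹ * ((w (T.1 0) : ℝ) + 1) ^ d) with hDdef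
  have hD0 : ∀ T, 0 < D T := fun T => by
    rw [hDdef]
    positivity
  have hex := fun T : Ix c a => by
    haveI : Nonempty (Ix c a) := ⟨T⟩
    exact exists_torus_explicit (g := g) (w := w) (a := a) σ T.2.2.1 hD (hg T.1 T.2.2.1)
      (fun T' : Ix c a => kap c T'.1) (fun T' l => kap_ne T'.2.2.1 l) (fun T' => T'.1)
      (fun T' => hi c T'.1)
  set M0 : Matrix (Ix c a) (Ix c a) ℝ := Matrix.of fun T T' =>
    D T * lead c a T.1 T'.1 (hi c T'.1) with hM0
  have hM : M0.det = ∏ T, D T := by
    rw [det_of_tri (fun T : Ix c a => ∑ l, (T.1 l : ℕ)) M0 fun T T' h => ?_]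
    · refine Finset.prod_congr rfl fun T _ => ?_
      rw [hM0, Matrix.of_apply, lead_same_one T.2, mul_one]
    · rw [hM0, Matrix.of_apply] at h
      rcases lead_other T.2 T'.2 (right_ne_zero_of_mul h) with h1 | h1
      · exact Or.inl (Subtype.ext h1)
      · exact Or.inr h1
  have hM1 : 0 < M0.det := by
    rw [hM]
    exact Finset.prod_pos fun T _ => hD0 T
  obtain ⟨δ, hδ, hdet⟩ := abs_det_near M0 (ε := ε * M0.det) (by positivity)
  choose Λ hΛ1 hΛ using fun T : Ix c a => hex T (δ / 2) (by linarith)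
  set C : ℝ := ∑ T, |Λ T| + 2 with hC
  have hsum : 0 ≤ ∑ T, |Λ T| := Finset.sum_nonneg fun J _ => abs_nonneg _
  have hΛC : ∀ T, Λ T ≤ C := by
    intro T
    have h1 := Finset.single_le_sum (f := fun T => |Λ T|) (fun T _ => abs_nonneg _)
      (Finset.mem_univ T)
    have h2 := le_abs_self (Λ T)
    have h3 : |Λ T| ≤ ∑ T, |Λ T| := h1
    linarith
  refine ⟨C, by linarith, fun lam hlam => ?_⟩
  choose Γ hΓ1 hΓ2 using fun T => hΛ T lam ((hΛC T).trans hlam)
  refine ⟨Γ, hΓ1, ?_⟩
  have hs : -Real.log ‖σ lam‖ ≠ 0 := by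
    have : 0 < Real.log ‖σ lam‖ := Real.log_pos (by linarith)
    linarith
  set s : ℝ := -Real.log ‖σ lam‖ with hsdef
  have h1 : |(Matrix.of fun T T' : Ix c a =>
      (Γ T).reg (symb (aent lam g w c a T'.1)) / s).det - M0.det| < ε * M0.det := by
    refine hdet _ fun T T' => ?_
    rw [hM0, Matrix.of_apply, Matrix.of_apply, mul_comm (D T)]
    exact lt_of_le_of_lt (hΓ2 T T') (show δ / 2 < δ by linarith)
  have h2 : (Matrix.of fun T T' : Ix c a =>
      (Γ T).reg (symb (aent lam g w c a T'.1))) =
      s • (Matrix.of fun T T' : Ix c a =>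
        (Γ T).reg (symb (aent lam g w c a T'.1)) / s) := by
    ext T T'
    rw [Matrix.smul_apply, Matrix.of_apply, Matrix.of_apply, smul_eq_mul]
    field_simp
  have h3 : ∏ T : Ix c a, (s * D T) = s ^ Fintype.card (Ix c a) * M0.det := by
    rw [Finset.prod_mul_distrib, Finset.prod_const, Finset.card_univ, hM]
  rw [h2, Matrix.det_smul]
  show |s ^ Fintype.card (Ix c a) * _ / ∏ T : Ix c a, (s * D T) - 1| ≤ ε
  rw [h3, mul_div_mul_left _ _ (pow_ne_zero _ hs), div_sub_one hM1.ne', abs_div,
    abs_of_pos hM1, div_le_iff₀ hM1]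
  exact h1.le

end main

end Pool.Agent.X321.UA
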